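import Pool.Agent.PKA.ADD
import Pool.Agent.PKA.CONS
import Pool.Agent.PKA.FAC
import Pool.Agent.PKA.GAP
import Pool.Agent.PKA.LAB
import Pool.Agent.PKA.NU
import Pool.Agent.PKA.ID
import Pool.Agent.PKA.AA
import Pool.Agent.PKA.BAS
import Pool.Agent.PKA.UNI
import Pool.Agent.PKA.EX
import Pool.Agent.PKA.EX0
import Pool.Agent.PKA.MEAS
import Pool.Agent.PKA.CPL
import Pool.Agent.PKA.UB
import Pool.Agent.PKA.UB2
import Pool.Agent.PKA.FIN
import Pool.Agent.PKL.Pk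

set_option autoImplicit false

/-!
# MP_f1618c_pr: an upper bound with a logarithm for every number of walkers

Every 1-avoidance coupling of `k` Bernoulli(`p`) walkers satisfies
`k * p + k * p ^ 2 * log (1 / p) ≤ 1`; the same inequality holds for the supremum `pk k`, and
`k * pk k ≤ 1 - (1 - ε) * log k / k` for all large `k`.
-/

open Filter Topology

namespace Pool.Agent.Results.MP_f1618c_pr.LogUpperBound

open Pool.Agent.PKA

theorem result :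
    (∀ (k : ℕ) (p : ℝ), 0 < k → 0 < p → p ≤ 1 → Coupled k p →
      (k : ℝ) * p + k * p ^ 2 * Real.log (1 / p) ≤ 1) ∧
    (∀ k : ℕ, 0 < k → (k : ℝ) * pk k + k * (pk k) ^ 2 * Real.log (1 / pk k) ≤ 1) ∧
    (∀ k : ℕ, 2 ≤ k → pk k < 1 / k) ∧
    (∀ ε : ℝ, 0 < ε → ∀ᶠ k : ℕ in atTop, (k : ℝ) * pk k ≤ 1 - (1 - ε) * (Real.log k / k)) :=
  ⟨fun _ _ hk hp hp1 h => PKL.bound hk hp hp1 h, fun _ hk => PKL.pk_bound hk,
    fun _ hk => PKL.pk_lt_inv hk,
    fun _ hε => PKL.pk_asymp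
      (p_FIN (p_LAB p_ADD p_CONS p_FAC) p_NU (p_ID p_NU) (p_BAS p_NU p_AA) (p_UNI p_NU p_AA)
      (p_CPL p_ADD p_CONS p_GAP p_MEAS) (p_EX p_NU) p_EX0 p_UB p_UB2).1 hε⟩

end Pool.Agent.Results.MP_f1618c_pr.LogUpperBound
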