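import Pool.Agent.PKA.UB2
import Pool.Agent.PKA.L2

set_option autoImplicit false

/-!
# MP_f1618c_pr: the maximal parameter for two walkers is `1 / 3`

`pk 2` is the supremum of all `p` for which there is a 1-avoidance coupling of two Bernoulli(`p`)
walkers. The lower bound is an explicit coupling; the upper bound is new.
-/

namespace Pool.Agent.Results.MP_f1618c_pr.TwoWalkers

open Pool.Agent.PKA

theorem result : pk 2 = 1 / 3 := by
  have hmem : (1 / 3 : ℝ) ∈ {p : ℝ | 0 ≤ p ∧ p ≤ 1 ∧ Coupled 2 p} :=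
    ⟨by norm_num, by norm_num, p_L2⟩
  apply le_antisymm
  · exact csSup_le ⟨_, hmem⟩ (fun p hp => p_UB2 p hp.1 hp.2.1 hp.2.2)
  · exact le_csSup ⟨1, fun p hp => hp.2.1⟩ hmem

end Pool.Agent.Results.MP_f1618c_pr.TwoWalkers
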